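import Pool.Agent.V11133.NR.Transfer
import Pool.Agent.Y926.TW.Main
import Pool.Agent.Y926.TW.Sim

/-!
# The rank of the near relations between the odd zeta values of a window and arbitrary numbers
-/

set_option autoImplicit false

namespace Pool.Agent.V11133.NR

open Finset Pool.Agent.H337R2

/-- the elementary inequality behind the choice of the parameters -/
lemma small_of_pow {D : ℕ} {u w B N : ℝ} (hN : 0 < N) (hNB : N ≤ B)
    (h1 : (2 * u) ^ (D + 1) * B < 1) (h2 : (2 * w) ^ (D + 1) * B ≤ 1) :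
    u + w < N ^ (-(1 / ((D + 1 : ℕ) : ℝ))) := by
  have hB : 0 < B := hN.trans_le hNB
  obtain ⟨ρ, hρ⟩ : ∃ ρ : ℝ, ρ = B ^ (-(1 / ((D + 1 : ℕ) : ℝ))) := ⟨_, rfl⟩
  have hρ0 : 0 < ρ := by rw [hρ]; exact Real.rpow_pos_of_pos hB _
  have hρp : ρ ^ (D + 1) * B = 1 := by
    rw [hρ, ← Real.rpow_natCast, ← Real.rpow_mul hB.le]
    have : -(1 / ((D + 1 : ℕ) : ℝ)) * ((D + 1 : ℕ) : ℝ) = -1 := by
      have : ((D + 1 : ℕ) : ℝ) ≠ 0 := by positivity
      field_simp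
    rw [this, Real.rpow_neg_one, inv_mul_cancel₀ hB.ne']
  have h3 : 2 * u < ρ := by
    refine lt_of_pow_lt_pow_left₀ (D + 1) hρ0.le ?_
    have := h1.trans_eq hρp.symm
    exact lt_of_mul_lt_mul_right this hB.le
  have h4 : 2 * w ≤ ρ := by
    refine le_of_pow_le_pow_left₀ (by omega) hρ0.le ?_ (n := D + 1)
    have := h2.trans_eq hρp.symm
    exact le_of_mul_le_mul_right this hB
  have h5 : ρ ≤ N ^ (-(1 / ((D + 1 : ℕ) : ℝ))) := by
    rw [hρ]
    exact Real.rpow_le_rpow_of_nonpos hN hNB (by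
      have : (0 : ℝ) ≤ 1 / ((D + 1 : ℕ) : ℝ) := by positivity
      linarith)
  linarith

/-- **Near relations in a window.** -/
theorem near_rank {b K s D : ℕ} (hK : 1 ≤ K)
    (hs : (2 : ℝ) ^ (132 * (D + 1)) * ((b : ℝ) + 1) ^ 2 * (K : ℝ) ^ 3 * Real.log (K + 1) ≤ (s : ℝ) ^ 2)
    (T : Finset ℕ) (hTK : (((Icc (b + 1) s).filter Odd) \ T).card < K)
    (r M : ℕ) (hM : M + D = T.card + r) :
    ∃ c : ℝ, 0 < c ∧ ∀ (t : Fin r → ℝ) (X : ℝ), 1 ≤ X →
      ∀ (a₀ : Fin M → ℤ) (a : Fin M → T → ℤ) (e : Fin M → Fin r → ℤ),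
        LinearIndependent ℤ (fun k => (a₀ k, a k, e k)) → (∀ k, |(a₀ k : ℝ)| ≤ X) →
        (∀ k j, |(a k j : ℝ)| ≤ X) → (∀ k i, |(e k i : ℝ)| ≤ X) →
        ∃ k, c / X ^ (M * (D ^ 2 + 3 * D + 3)) ≤
          |(a₀ k : ℝ) + ∑ j : T, (a k j : ℝ) * zr j + ∑ i, (e k i : ℝ) * t i| := by
  classical
  obtain ⟨q0, hq0⟩ := Pool.Agent.Y926.TW.window_core (b := b) (K := K) (S := D + 1) (s := s) hK
    (by omega) hs
  -- the constants
  obtain ⟨q1, hq1⟩ : ∃ q1 : ℕ, q1 = max q0 1 := ⟨_, rfl⟩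
  have hq11 : 1 ≤ q1 := by rw [hq1]; exact le_max_right _ _
  have hq10 : q0 ≤ q1 := by rw [hq1]; exact le_max_left _ _
  have hq1R : (1 : ℝ) ≤ q1 := by exact_mod_cast hq11
  have hMf : (1 : ℝ) ≤ M.factorial := by exact_mod_cast Nat.factorial_pos M
  obtain ⟨C1, hC1⟩ : ∃ C1 : ℝ, C1 = (2 * (2 * (D : ℝ) + 2) ^ (D + 1)) ^ D := ⟨_, rfl⟩
  have hC11 : 1 ≤ C1 := by
    rw [hC1]
    apply one_le_pow₀
    have : (1 : ℝ) ≤ (2 * (D : ℝ) + 2) ^ (D + 1) := by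
      apply one_le_pow₀
      have : (0 : ℝ) ≤ D := Nat.cast_nonneg D
      linarith
    linarith
  obtain ⟨G, hG⟩ : ∃ G : ℝ, G = (q1 * M.factorial : ℝ) ^ ((D + 1) * (D + 2)) := ⟨_, rfl⟩
  have hG1 : 1 ≤ G := by
    rw [hG]
    apply one_le_pow₀
    nlinarith
  have hMM : (0 : ℝ) ≤ M * M.factorial := by positivity
  refine ⟨1 / (2 * C1 ^ 2 * G * (M * M.factorial + 1)), by positivity, ?_⟩
  intro t X hX a₀ a e hli h0 h1 h2
  by_contra hcon
  push Not at hcon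
  have hX0 : (0 : ℝ) < X := by linarith
  obtain ⟨δ, hδ⟩ : ∃ δ : ℝ, δ = 1 / (2 * C1 ^ 2 * G * (M * M.factorial + 1)) /
      X ^ (M * (D ^ 2 + 3 * D + 3)) := ⟨_, rfl⟩
  rw [← hδ] at hcon
  have hδ0 : 0 < δ := by rw [hδ]; positivity
  -- the error
  obtain ⟨E, hE⟩ : ∃ E : ℝ, E = M * (M.factorial * X ^ M) * δ := ⟨_, rfl⟩
  have hE0 : 0 ≤ E := by rw [hE]; positivity
  obtain ⟨H, hH⟩ : ∃ H : ℝ, H = q1 * (M.factorial * X ^ M) := ⟨_, rfl⟩
  have hXM : (1 : ℝ) ≤ X ^ M := one_le_pow₀ hX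
  have hH1 : 1 ≤ H := by
    rw [hH]
    have : (1 : ℝ) ≤ M.factorial * X ^ M := by nlinarith
    nlinarith
  have hH0 : 0 < H := by linarith
  have hEle : E * (2 * C1 ^ 2 * H ^ ((D + 1) * (D + 2))) ≤ 1 := by
    have e1 : H ^ ((D + 1) * (D + 2)) = G * X ^ (M * ((D + 1) * (D + 2))) := by
      rw [hH, hG, ← mul_assoc, mul_pow, ← pow_mul]
    have e2 : X ^ (M * (D ^ 2 + 3 * D + 3)) = X ^ M * X ^ (M * ((D + 1) * (D + 2))) := by
      rw [← pow_add]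
      congr 1
      ring
    rw [e1, hE, hδ, e2]
    have hP : (0 : ℝ) < X ^ (M * ((D + 1) * (D + 2))) := by positivity
    have hG0 : (0 : ℝ) < G := by linarith
    have hC0 : (0 : ℝ) < C1 := by linarith
    have e3 : (M : ℝ) * (M.factorial * X ^ M) * (1 / (2 * C1 ^ 2 * G * (M * M.factorial + 1)) /
        (X ^ M * X ^ (M * ((D + 1) * (D + 2))))) *
        (2 * C1 ^ 2 * (G * X ^ (M * ((D + 1) * (D + 2))))) =
        (M * M.factorial) / (M * M.factorial + 1) := by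
      have hXM0 : X ^ M ≠ 0 := by positivity
      field_simp
    rw [e3, div_le_one (by positivity)]
    linarith
  have hE1 : E < 1 := by
    have hpow : (1 : ℝ) ≤ H ^ ((D + 1) * (D + 2)) := one_le_pow₀ hH1
    have hC2 : (1 : ℝ) ≤ C1 ^ 2 := one_le_pow₀ hC11
    have h3 : (2 : ℝ) ≤ 2 * C1 ^ 2 * H ^ ((D + 1) * (D + 2)) := by nlinarith
    nlinarith
  -- the matrix of the relations
  obtain ⟨A, hA⟩ : ∃ A : Matrix (Fin M) (Option (T ⊕ Fin r)) ℤ,
      A = fun k o => o.elim (a₀ k) (Sum.elim (a k) (e k)) := ⟨_, rfl⟩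
  have hA0 : ∀ k, A k none = a₀ k := fun k => by rw [hA]; rfl
  have hA1 : ∀ k j, A k (some (Sum.inl j)) = a k j := fun k j => by rw [hA]; rfl
  have hA2 : ∀ k i, A k (some (Sum.inr i)) = e k i := fun k i => by rw [hA]; rfl
  obtain ⟨y, hy⟩ : ∃ y : T ⊕ Fin r → ℝ, y = Sum.elim (fun j : T => zr j) t := ⟨_, rfl⟩
  have hAX : ∀ k j, |(A k j : ℝ)| ≤ X := by
    intro k o
    rcases o with _ | (j | i)
    · rw [hA0]; exact h0 k
    · rw [hA1]; exact h1 k j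
    · rw [hA2]; exact h2 k i
  have hAli : ∀ c : Fin M → ℤ, (∀ j, ∑ k, c k * A k j = 0) → c = 0 := by
    intro c hc
    rw [Fintype.linearIndependent_iff] at hli
    funext k
    refine hli c ?_ k
    refine Prod.ext ?_ (Prod.ext ?_ ?_)
    · have := hc none
      simp_rw [hA0] at this
      simpa [Prod.fst_sum] using this
    · funext j
      have := hc (some (Sum.inl j))
      simp_rw [hA1] at this
      simpa [Prod.snd_sum, Prod.fst_sum] using this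
    · funext i
      have := hc (some (Sum.inr i))
      simp_rw [hA2] at this
      simpa [Prod.snd_sum] using this
  have hL : ∀ k, |(A k none : ℝ) + ∑ j, (A k (some j) : ℝ) * y j| ≤ δ := by
    intro k
    rw [Fintype.sum_sum_type, hA0]
    simp_rw [hA1, hA2]
    rw [hy]
    simp only [Sum.elim_inl, Sum.elim_inr]
    rw [← add_assoc]
    exact (hcon k).le
  obtain ⟨F, q, p, c, hF, hqpos, hqX, hcX, happ⟩ := transfer A hX hAX hAli y hL
    (by rw [← hE]; exact hE1)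
  rw [← hE] at happ
  have hFD : F.card = D := by
    rw [Fintype.card_sum, Fintype.card_coe, Fintype.card_fin] at hF
    omega
  -- Dirichlet's theorem
  obtain ⟨g⟩ : Nonempty (Fin D ≃ F) := ⟨(Fintype.equivFinOfCardEq (by
    rw [Fintype.card_coe, hFD])).symm⟩
  obtain ⟨Q, hQ⟩ : ∃ Q : ℕ, Q = ⌈(2 * (D : ℝ) + 2) ^ (D + 1) * H ^ (D + 2)⌉₊ := ⟨_, rfl⟩
  have hD0 : (0 : ℝ) ≤ D := Nat.cast_nonneg D
  have hbase : (1 : ℝ) ≤ (2 * (D : ℝ) + 2) ^ (D + 1) := one_le_pow₀ (by linarith)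
  have hHp : (1 : ℝ) ≤ H ^ (D + 2) := one_le_pow₀ hH1
  have hval : (1 : ℝ) ≤ (2 * (D : ℝ) + 2) ^ (D + 1) * H ^ (D + 2) := by nlinarith
  have hQlo : (2 * (D : ℝ) + 2) ^ (D + 1) * H ^ (D + 2) ≤ Q := by rw [hQ]; exact Nat.le_ceil _
  have hQ0 : (0 : ℝ) < Q := by linarith
  have hQ1 : 1 ≤ Q := by
    have : (1 : ℝ) ≤ Q := hval.trans hQlo
    exact_mod_cast this
  have hQhi : (Q : ℝ) ≤ 2 * (2 * (D : ℝ) + 2) ^ (D + 1) * H ^ (D + 2) := by
    have : (Q : ℝ) < (2 * (D : ℝ) + 2) ^ (D + 1) * H ^ (D + 2) + 1 := by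
      rw [hQ]; exact Nat.ceil_lt_add_one (by linarith)
    linarith
  obtain ⟨n, hn1, hnQ, hn⟩ := Pool.Agent.Y926.TW.dirichlet_sim D (fun d => y (g d)) Q hQ1
  choose P hP using hn
  have hnR : (n : ℝ) ≤ (Q : ℝ) ^ D := by exact_mod_cast hnQ
  have hn1R : (1 : ℝ) ≤ n := by exact_mod_cast hn1
  obtain ⟨B, hB⟩ : ∃ B : ℝ, B = (Q : ℝ) ^ D * H := ⟨_, rfl⟩
  have hB0 : 0 < B := by rw [hB]; positivity
  -- the size of B
  have hBle : B ≤ C1 * H ^ ((D + 1) ^ 2) := by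
    rw [hB, hC1]
    calc (Q : ℝ) ^ D * H ≤ (2 * (2 * (D : ℝ) + 2) ^ (D + 1) * H ^ (D + 2)) ^ D * H := by gcongr
      _ = (2 * (2 * (D : ℝ) + 2) ^ (D + 1)) ^ D * H ^ ((D + 1) ^ 2) := by
          rw [mul_pow, mul_assoc, ← pow_mul, ← pow_succ]
          congr 2
          ring
  -- the multiplier
  obtain ⟨N, hN⟩ : ∃ N : ℕ, N = n * (q1 * q) := ⟨_, rfl⟩
  have hNq : q0 ≤ N := by
    rw [hN]
    calc q0 ≤ q1 := hq10
      _ = 1 * (q1 * 1) := by ring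
      _ ≤ n * (q1 * q) := Nat.mul_le_mul hn1 (Nat.mul_le_mul_left _ hqpos)
  have hN0 : (0 : ℝ) < N := by
    have : 0 < N := by
      rw [hN]
      exact Nat.mul_pos (by omega) (Nat.mul_pos (by omega) hqpos)
    exact_mod_cast this
  have hqH : (q1 : ℝ) * q ≤ H := by rw [hH]; gcongr
  have hqq0 : (0 : ℝ) ≤ (q1 : ℝ) * q := by positivity
  have hNB : (N : ℝ) ≤ B := by
    rw [hN, hB]
    push_cast
    exact mul_le_mul hnR hqH hqq0 (by positivity)
  have hkey := hq0 N hNq (((Icc (b + 1) s).filter Odd) \ T) (fun j hodd hbj hjs hjI => ?_)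
  · omega
  -- the values in `T` are well approximated
  have hjT : j ∈ T := by
    by_contra hcon2
    apply hjI
    rw [mem_sdiff, mem_filter, mem_Icc]
    exact ⟨⟨⟨by omega, hjs⟩, hodd⟩, hcon2⟩
  obtain ⟨i, hi⟩ : ∃ i : T ⊕ Fin r, i = Sum.inl ⟨j, hjT⟩ := ⟨_, rfl⟩
  have hyi : y i = zr j := by rw [hi, hy]; rfl
  have happi := happ i
  rw [hyi] at happi
  have hsumF : ∑ l ∈ F, (c i l : ℝ) * y l = ∑ d : Fin D, (c i (g d) : ℝ) * y (g d) := by
    rw [← Finset.sum_coe_sort F (fun l => (c i l : ℝ) * y l)]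
    exact (Equiv.sum_comp g (fun l : F => (c i l : ℝ) * y l)).symm
  rw [hsumF] at happi
  have hqR : (0 : ℝ) < q := by exact_mod_cast hqpos
  refine ⟨n * (q1 * p i) + ∑ d : Fin D, (q1 * c i (g d)) * P d, ?_⟩
  have hid : (N : ℝ) * zr j - ((n * (q1 * p i) + ∑ d : Fin D, (q1 * c i (g d)) * P d : ℤ) : ℝ) =
      (n : ℝ) * (q1 * q) * (zr j - ((p i : ℝ) + ∑ d : Fin D, (c i (g d) : ℝ) * y (g d)) / q) +
        ∑ d : Fin D, ((q1 : ℝ) * c i (g d)) * ((n : ℝ) * y (g d) - P d) := by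
    have e1 : ∑ d : Fin D, ((q1 : ℝ) * c i (g d)) * ((n : ℝ) * y (g d) - P d) =
        (n : ℝ) * q1 * (∑ d : Fin D, (c i (g d) : ℝ) * y (g d)) -
          ∑ d : Fin D, ((q1 : ℝ) * c i (g d)) * P d := by
      rw [Finset.mul_sum, ← Finset.sum_sub_distrib]
      exact Finset.sum_congr rfl fun d _ => by ring
    rw [e1, hN]
    push_cast
    field_simp
    ring
  rw [hid]
  have b1 : |(n : ℝ) * (q1 * q) * (zr j - ((p i : ℝ) + ∑ d : Fin D, (c i (g d) : ℝ) * y (g d)) / q)| ≤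
      B * E := by
    rw [abs_mul, abs_of_nonneg (by positivity : (0 : ℝ) ≤ (n : ℝ) * (q1 * q))]
    refine mul_le_mul ?_ happi (abs_nonneg _) hB0.le
    rw [hB]
    exact mul_le_mul hnR hqH hqq0 (by positivity)
  have b2 : |∑ d : Fin D, ((q1 : ℝ) * c i (g d)) * ((n : ℝ) * y (g d) - P d)| ≤ D * H / Q := by
    calc |∑ d : Fin D, ((q1 : ℝ) * c i (g d)) * ((n : ℝ) * y (g d) - P d)|
        ≤ ∑ _d : Fin D, H * (1 / Q) := by
          refine (Finset.abs_sum_le_sum_abs _ _).trans (Finset.sum_le_sum fun d _ => ?_)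
          rw [abs_mul, abs_mul, abs_of_nonneg (by positivity : (0 : ℝ) ≤ (q1 : ℝ))]
          refine mul_le_mul ?_ (hP d).le (abs_nonneg _) hH0.le
          rw [hH]
          exact mul_le_mul_of_nonneg_left (hcX i (g d)) (by positivity)
      _ = D * H / Q := by
          rw [Finset.sum_const, Finset.card_univ, Fintype.card_fin, nsmul_eq_mul]
          ring
  refine lt_of_le_of_lt ((abs_add_le _ _).trans (add_le_add b1 b2)) ?_
  rw [add_comm]
  refine small_of_pow (D := D) hN0 hNB ?_ ?_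
  · -- the main term
    have f1 : (2 * (D * H / Q)) ^ (D + 1) * B = (2 * D) ^ (D + 1) * H ^ (D + 2) / Q := by
      have g1 : (2 * (D * H / Q)) ^ (D + 1) = (2 * D) ^ (D + 1) * H ^ (D + 1) / (Q : ℝ) ^ (D + 1) := by
        rw [← mul_pow, ← div_pow]
        congr 1
        ring
      have g2 : (Q : ℝ) ^ D ≠ 0 := by positivity
      rw [hB, g1, pow_succ (Q : ℝ) D, pow_succ H (D + 1)]
      field_simp
    rw [f1, div_lt_one hQ0]
    refine lt_of_lt_of_le ?_ hQlo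
    apply mul_lt_mul_of_pos_right _ (by positivity)
    exact pow_lt_pow_left₀ (by linarith) (by positivity) (by omega)
  · -- the error term
    have f1 : (2 * (B * E)) ^ (D + 1) * B = (2 * E) ^ (D + 1) * B ^ (D + 2) := by ring
    rw [f1]
    have f2 : B ^ (D + 2) ≤ (C1 * H ^ ((D + 1) ^ 2)) ^ (D + 2) := by gcongr
    have f3 : (C1 * H ^ ((D + 1) ^ 2)) ^ (D + 2) ≤ (C1 ^ 2 * H ^ ((D + 1) * (D + 2))) ^ (D + 1) := by
      rw [mul_pow, mul_pow, ← pow_mul, ← pow_mul, ← pow_mul]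
      have e1 : (D + 1) ^ 2 * (D + 2) = (D + 1) * (D + 2) * (D + 1) := by ring
      rw [e1]
      apply mul_le_mul_of_nonneg_right _ (by positivity)
      exact pow_le_pow_right₀ hC11 (by omega)
    calc (2 * E) ^ (D + 1) * B ^ (D + 2)
        ≤ (2 * E) ^ (D + 1) * (C1 ^ 2 * H ^ ((D + 1) * (D + 2))) ^ (D + 1) := by
          apply mul_le_mul_of_nonneg_left (f2.trans f3) (by positivity)
      _ = (E * (2 * C1 ^ 2 * H ^ ((D + 1) * (D + 2)))) ^ (D + 1) := by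
          rw [← mul_pow]
          congr 1
          ring
      _ ≤ 1 := pow_le_one₀ (by positivity) hEle

end Pool.Agent.V11133.NR
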