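import Mathlib

/-!
# From near relations to rational subspaces

`M` linearly independent integer relations between `1` and the real numbers `y j`, `j ∈ σ`, which are
nearly satisfied, give a rational parametrisation of all the `y i` by `card σ - M` of them.
-/

set_option autoImplicit false
set_option linter.unusedSectionVars false

namespace Pool.Agent.V11133.NR

open Finset Matrix

/-- Independent families of functions have nonzero minors (compare `Pool.Agent.H531R2`). -/
theorem exists_minor {R J : Type*} [CommRing R] [Nontrivial R] : ∀ (v : ℕ) (P : Fin v → J → R),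
    (∀ c : Fin v → R, (∀ j, ∑ b, c b * P b j = 0) → c = 0) →
    ∃ σ : Fin v → J, (Matrix.of fun b t => P b (σ t)).det ≠ 0 := by
  intro v
  induction v with
  | zero => intro P _; exact ⟨Fin.elim0, by simp⟩
  | succ v ih =>
    intro P hP
    obtain ⟨σ, hσ⟩ := ih (fun b => P b.succ) (by
      intro c hc
      have h1 := hP (Fin.cons 0 c) (by
        intro j
        rw [Fin.sum_univ_succ]
        simpa using hc j)
      funext b
      have := congrFun h1 b.succ
      simpa using this)
    let c : Fin (v + 1) → R := fun i =>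
      (-1) ^ (i : ℕ) * (Matrix.of fun (b t : Fin v) => P (i.succAbove b) (σ t)).det
    have hc0 : c ≠ 0 := by
      intro h0
      apply hσ
      have := congrFun h0 0
      simpa [c] using this
    have hex : ∃ j, ∑ b, c b * P b j ≠ 0 := by
      by_contra hcon
      push Not at hcon
      exact hc0 (hP c hcon)
    obtain ⟨j, hj⟩ := hex
    refine ⟨Fin.cons j σ, ?_⟩
    rw [Matrix.det_succ_column_zero]
    intro h0
    apply hj
    rw [← h0]
    refine Finset.sum_congr rfl fun i _ => ?_
    have h1 : (Matrix.of fun (b t : Fin (v + 1)) => P b ((Fin.cons j σ : Fin (v + 1) → J) t)).submatrix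
        i.succAbove Fin.succ = Matrix.of fun (b t : Fin v) => P (i.succAbove b) (σ t) := by
      ext b t
      simp
    rw [h1]
    simp only [c, Matrix.of_apply, Fin.cons_zero]
    ring

/-- the size of a determinant -/
lemma det_bound {M : ℕ} (B : Matrix (Fin M) (Fin M) ℤ) {X : ℝ} (hB : ∀ i j, |(B i j : ℝ)| ≤ X) :
    |(B.det : ℝ)| ≤ M.factorial * X ^ M := by
  have h := Matrix.det_le (A := B.map (Int.cast : ℤ → ℝ)) (abv := (AbsoluteValue.abs : AbsoluteValue ℝ ℝ))
    (x := X) (fun i j => hB i j)
  rw [Fintype.card_fin, nsmul_eq_mul] at h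
  have e : (B.map (Int.cast : ℤ → ℝ)).det = (B.det : ℝ) := by
    have : B.map (Int.cast : ℤ → ℝ) = (Int.castRingHom ℝ).mapMatrix B := rfl
    rw [this, ← RingHom.map_det]
    rfl
  rw [e] at h
  exact h

section

variable {M : ℕ} {J : Type*} [Fintype J] [DecidableEq J]

/-- the determinant with the column `j0` replaced by the column `j` of `A` -/
def cof (A : Matrix (Fin M) J ℤ) (f : Fin M → J) (j0 : Fin M) (j : J) : ℤ :=
  ((A.submatrix id f).updateCol j0 fun k => A k j).det

lemma cof_bound (A : Matrix (Fin M) J ℤ) {X : ℝ} (hA : ∀ k j, |(A k j : ℝ)| ≤ X) (f : Fin M → J)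
    (j0 : Fin M) (j : J) : |(cof A f j0 j : ℝ)| ≤ M.factorial * X ^ M := by
  apply det_bound
  intro i k
  rw [Matrix.updateCol_apply]
  split_ifs
  · exact hA _ _
  · exact hA _ _

lemma adj_bound (A : Matrix (Fin M) J ℤ) {X : ℝ} (hX : 1 ≤ X) (hA : ∀ k j, |(A k j : ℝ)| ≤ X)
    (f : Fin M → J) (j0 k : Fin M) :
    |(((A.submatrix id f).adjugate j0 k : ℤ) : ℝ)| ≤ M.factorial * X ^ M := by
  rw [Matrix.adjugate_apply]
  apply det_bound
  intro i l
  rw [Matrix.updateRow_apply]
  split_ifs
  · rw [Pi.single_apply]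
    split_ifs
    · simpa using hX
    · simp only [Int.cast_zero, abs_zero]
      linarith
  · exact hA _ _

lemma cof_eq (A : Matrix (Fin M) J ℤ) (f : Fin M → J) (j0 : Fin M) (j : J) :
    cof A f j0 j = ∑ k, (A.submatrix id f).adjugate j0 k * A k j := by
  have h := congrFun (Matrix.cramer_eq_adjugate_mulVec (A.submatrix id f) (fun k => A k j)) j0
  rw [Matrix.cramer_apply] at h
  exact h

lemma injective_of_det {A : Matrix (Fin M) J ℤ} {f : Fin M → J}
    (h : (A.submatrix id f).det ≠ 0) : Function.Injective f := by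
  intro i i' hii
  by_contra hne
  apply h
  apply Matrix.det_zero_of_column_eq hne
  intro k
  simp [hii]

/-- **Cramer's rule** for the relations `L k = ∑ j, A k j * y j`. -/
lemma cramer_rule (A : Matrix (Fin M) J ℤ) (f : Fin M → J) (hf : Function.Injective f) (y : J → ℝ)
    (j0 : Fin M) :
    ((A.submatrix id f).det : ℝ) * y (f j0) =
      ∑ k, (((A.submatrix id f).adjugate j0 k : ℤ) : ℝ) * (∑ j, (A k j : ℝ) * y j) -
        ∑ j ∈ (univ.image f)ᶜ, (cof A f j0 j : ℝ) * y j := by
  have h1 : ∑ k, (((A.submatrix id f).adjugate j0 k : ℤ) : ℝ) * (∑ j, (A k j : ℝ) * y j) =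
      ∑ j, (cof A f j0 j : ℝ) * y j := by
    simp_rw [mul_sum]
    rw [sum_comm]
    refine sum_congr rfl fun j _ => ?_
    rw [cof_eq]
    push_cast
    rw [sum_mul]
    refine sum_congr rfl fun k _ => ?_
    ring
  have h2 : ∑ j, (cof A f j0 j : ℝ) * y j =
      ∑ j ∈ univ.image f, (cof A f j0 j : ℝ) * y j +
        ∑ j ∈ (univ.image f)ᶜ, (cof A f j0 j : ℝ) * y j :=
    (sum_add_sum_compl _ _).symm
  have h3 : ∑ j ∈ univ.image f, (cof A f j0 j : ℝ) * y j =
      ((A.submatrix id f).det : ℝ) * y (f j0) := by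
    rw [sum_image (fun a _ b _ h => hf h)]
    rw [sum_eq_single j0]
    · congr 2
      unfold cof
      congr 1
      ext i k
      rw [Matrix.updateCol_apply]
      split_ifs with h
      · rw [h]; rfl
      · rfl
    · intro b _ hb
      have h4 : cof A f j0 (f b) = 0 := by
        unfold cof
        apply Matrix.det_zero_of_column_eq (Ne.symm hb)
        intro k
        rw [Matrix.updateCol_apply, Matrix.updateCol_apply, if_pos rfl, if_neg hb]
        rfl
      rw [h4, Int.cast_zero, zero_mul]
    · intro h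
      exact absurd (mem_univ _) h
  rw [h1, h2, h3]
  ring

end

variable {M : ℕ} {σ : Type*} [Fintype σ] [DecidableEq σ]

lemma sum_adj_le (A : Matrix (Fin M) (Option σ) ℤ) {X δ : ℝ} (hX : 1 ≤ X)
    (hA : ∀ k j, |(A k j : ℝ)| ≤ X) (f : Fin M → Option σ) (y : Option σ → ℝ)
    (hL : ∀ k, |∑ j, (A k j : ℝ) * y j| ≤ δ) (j0 : Fin M) :
    |∑ k, (((A.submatrix id f).adjugate j0 k : ℤ) : ℝ) * (∑ j, (A k j : ℝ) * y j)| ≤
      M * (M.factorial * X ^ M) * δ := by
  refine (abs_sum_le_sum_abs _ _).trans ?_
  calc ∑ k, |(((A.submatrix id f).adjugate j0 k : ℤ) : ℝ) * (∑ j, (A k j : ℝ) * y j)|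
      ≤ ∑ _k : Fin M, (M.factorial * X ^ M) * δ := by
        refine sum_le_sum fun k _ => ?_
        rw [abs_mul]
        have := adj_bound A hX hA f j0 k
        exact mul_le_mul this (hL k) (abs_nonneg _) ((abs_nonneg _).trans this)
    _ = _ := by
        rw [sum_const, card_univ, Fintype.card_fin, nsmul_eq_mul]
        ring

/-- a nonzero minor which avoids the column `none` -/
lemma exists_good (A : Matrix (Fin M) (Option σ) ℤ) {X δ : ℝ} (hX : 1 ≤ X)
    (hA : ∀ k j, |(A k j : ℝ)| ≤ X)
    (hli : ∀ c : Fin M → ℤ, (∀ j, ∑ k, c k * A k j = 0) → c = 0)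
    (y : Option σ → ℝ) (hy : y none = 1)
    (hL : ∀ k, |∑ j, (A k j : ℝ) * y j| ≤ δ) (hδ : M * (M.factorial * X ^ M) * δ < 1) :
    ∃ f : Fin M → Option σ, (A.submatrix id f).det ≠ 0 ∧ none ∉ univ.image f := by
  obtain ⟨f, hf⟩ := exists_minor M (fun k j => A k j) hli
  have hdet : (A.submatrix id f).det ≠ 0 := hf
  have hinj := injective_of_det hdet
  by_cases hn : none ∈ univ.image f
  · obtain ⟨j0, -, hj0⟩ := mem_image.1 hn
    have hex : ∃ j ∈ (univ.image f)ᶜ, cof A f j0 j ≠ 0 := by
      by_contra hcon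
      push Not at hcon
      have h1 := cramer_rule A f hinj y j0
      rw [hj0, hy, mul_one] at h1
      rw [sum_eq_zero (s := (univ.image f)ᶜ) (fun j hj => by
        rw [hcon j hj, Int.cast_zero, zero_mul]), sub_zero] at h1
      have h2 := sum_adj_le A hX hA f y hL j0
      rw [← h1] at h2
      have h3 : (1 : ℤ) ≤ |(A.submatrix id f).det| := Int.one_le_abs hdet
      have h4 : (1 : ℝ) ≤ |((A.submatrix id f).det : ℝ)| := by exact_mod_cast h3
      linarith
    obtain ⟨j, hj, hcj⟩ := hex
    refine ⟨Function.update f j0 j, ?_, ?_⟩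
    · intro h
      apply hcj
      rw [← h]
      unfold cof
      congr 1
      ext i k
      show (A.submatrix id f).updateCol j0 (fun k => A k j) i k = A i (Function.update f j0 j k)
      rw [Matrix.updateCol_apply]
      by_cases hk : k = j0
      · rw [if_pos hk, hk, Function.update_self]
      · rw [if_neg hk, Function.update_of_ne hk]
        rfl
    · intro h
      obtain ⟨i, -, hi⟩ := mem_image.1 h
      by_cases hk : i = j0
      · rw [hk, Function.update_self] at hi
        rw [mem_compl, hi] at hj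
        exact hj hn
      · rw [Function.update_of_ne hk] at hi
        exact hk (hinj (hi.trans hj0.symm))
  · exact ⟨f, hdet, hn⟩

/-- **From near relations to a rational parametrisation.** If `M` linearly independent integer
relations of size at most `X` between `1` and the `y j` are smaller than `δ` in absolute value, `δ`
small in terms of `X` and `M`, then all the `y i` are close to
`(a i + ∑ j ∈ F, c i j * y j) / q` for a set `F` of `card σ - M` indices and integers of size at most
`M! X ^ M`. -/
theorem transfer (A : Matrix (Fin M) (Option σ) ℤ) {X δ : ℝ} (hX : 1 ≤ X)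
    (hA : ∀ k j, |(A k j : ℝ)| ≤ X)
    (hli : ∀ c : Fin M → ℤ, (∀ j, ∑ k, c k * A k j = 0) → c = 0)
    (y : σ → ℝ) (hL : ∀ k, |(A k none : ℝ) + ∑ j, (A k (some j) : ℝ) * y j| ≤ δ)
    (hδ : M * (M.factorial * X ^ M) * δ < 1) :
    ∃ (F : Finset σ) (q : ℕ) (a : σ → ℤ) (c : σ → σ → ℤ), F.card + M = Fintype.card σ ∧ 0 < q ∧
      (q : ℝ) ≤ M.factorial * X ^ M ∧ (∀ i j, |(c i j : ℝ)| ≤ M.factorial * X ^ M) ∧
      ∀ i, |y i - ((a i : ℝ) + ∑ j ∈ F, (c i j : ℝ) * y j) / q| ≤ M * (M.factorial * X ^ M) * δ := by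
  classical
  obtain ⟨z, hz⟩ : ∃ z : Option σ → ℝ, z = fun o => o.elim 1 y := ⟨_, rfl⟩
  have hz0 : z none = 1 := by rw [hz]; rfl
  have hz1 : ∀ j, z (some j) = y j := fun j => by rw [hz]; rfl
  have hL' : ∀ k, |∑ j, (A k j : ℝ) * z j| ≤ δ := by
    intro k
    rw [Fintype.sum_option, hz0, mul_one]
    simp_rw [hz1]
    exact hL k
  obtain ⟨f, hdet, hn⟩ := exists_good A hX hA hli z hz0 hL' hδ
  have hinj := injective_of_det hdet
  set D : ℤ := (A.submatrix id f).det with hD
  have hDX : |(D : ℝ)| ≤ M.factorial * X ^ M := det_bound _ fun i j => hA _ _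
  have hD0 : (D : ℝ) ≠ 0 := by exact_mod_cast hdet
  set F : Finset σ := univ.filter fun j => some j ∉ univ.image f with hF
  have hcompl : (univ.image f)ᶜ = insert none (F.image some) := by
    ext o
    rcases o with _ | j
    · simp only [mem_compl, mem_insert, true_or, iff_true]
      exact hn
    · simp [hF]
  have hcard : F.card + M = Fintype.card σ := by
    have h1 : ((univ.image f)ᶜ).card = Fintype.card (Option σ) - M := by
      rw [card_compl, card_image_of_injective _ hinj, card_univ, Fintype.card_fin]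
    rw [hcompl, card_insert_of_notMem (by simp), card_image_of_injective _ (Option.some_injective _),
      Fintype.card_option] at h1
    have h2 : M ≤ Fintype.card σ := by
      have h3 : (univ.image f).card ≤ (univ.image (some : σ → Option σ)).card := by
        apply card_le_card
        intro o ho
        rcases o with _ | j
        · exact absurd ho hn
        · exact mem_image_of_mem _ (mem_univ _)
      rw [card_image_of_injective _ hinj, card_image_of_injective _ (Option.some_injective _),
        card_univ, card_univ, Fintype.card_fin] at h3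
      exact h3
    omega
  have hsplit : ∀ g : Option σ → ℝ, ∑ j ∈ (univ.image f)ᶜ, g j = g none + ∑ j ∈ F, g (some j) := by
    intro g
    rw [hcompl, sum_insert (by simp), sum_image (fun a _ b _ h => Option.some_injective _ h)]
  -- the data
  have hex : ∀ i : σ, ∃ (a : ℤ) (c : σ → ℤ), (∀ j, |(c j : ℝ)| ≤ M.factorial * X ^ M) ∧
      |D * y i - ((a : ℝ) + ∑ j ∈ F, (c j : ℝ) * y j)| ≤ M * (M.factorial * X ^ M) * δ := by
    intro i
    by_cases hi : some i ∈ univ.image f
    · obtain ⟨j0, -, hj0⟩ := mem_image.1 hi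
      refine ⟨-cof A f j0 none, fun j => -cof A f j0 (some j), fun j => ?_, ?_⟩
      · rw [Int.cast_neg, abs_neg]
        exact cof_bound A hA f j0 _
      · have h1 := cramer_rule A f hinj z j0
        rw [hj0, hz1, hsplit, hz0] at h1
        simp_rw [hz1] at h1
        have h2 := sum_adj_le A hX hA f z hL' j0
        have h3 : (D : ℝ) * y i - (((-cof A f j0 none : ℤ) : ℝ) +
            ∑ j ∈ F, ((-cof A f j0 (some j) : ℤ) : ℝ) * y j) =
            ∑ k, (((A.submatrix id f).adjugate j0 k : ℤ) : ℝ) * (∑ j, (A k j : ℝ) * z j) := by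
          push_cast
          simp_rw [neg_mul, sum_neg_distrib]
          rw [hD]
          linarith
        rw [h3]
        exact h2
    · have hiF : i ∈ F := by rw [hF, mem_filter]; exact ⟨mem_univ _, hi⟩
      refine ⟨0, fun j => if j = i then D else 0, fun j => ?_, ?_⟩
      · show |((if j = i then D else 0 : ℤ) : ℝ)| ≤ _
        split_ifs
        · exact hDX
        · rw [Int.cast_zero, abs_zero]
          exact (abs_nonneg _).trans hDX
      · have h1 : ∑ j ∈ F, ((((fun j => if j = i then D else 0 : σ → ℤ) j) : ℤ) : ℝ) * y j =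
            D * y i := by
          rw [sum_eq_single i]
          · simp only [if_true]
          · intro b _ hb
            simp only [if_neg hb, Int.cast_zero, zero_mul]
          · intro h; exact absurd hiF h
        rw [h1, Int.cast_zero, zero_add, sub_self, abs_zero]
        rcases Nat.eq_zero_or_pos M with h0 | h0
        · subst h0
          simp
        · have := (abs_nonneg _).trans (hL ⟨0, h0⟩)
          positivity
  choose a c hc hac using hex
  have hsgn : (D.sign : ℝ) * D = |(D : ℝ)| := by
    have := Int.sign_mul_self_eq_abs D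
    exact_mod_cast congrArg (Int.cast : ℤ → ℝ) this
  have hsgn1 : |(D.sign : ℝ)| = 1 := by
    rcases lt_trichotomy D 0 with h | h | h
    · rw [Int.sign_eq_neg_one_of_neg h]; norm_num
    · exact absurd h hdet
    · rw [Int.sign_eq_one_of_pos h]; norm_num
  have hq : ((D.natAbs : ℕ) : ℝ) = |(D : ℝ)| := by
    rw [Nat.cast_natAbs, Int.cast_abs]
  refine ⟨F, D.natAbs, fun i => D.sign * a i, fun i j => D.sign * c i j, hcard,
    Int.natAbs_pos.2 hdet, ?_, ?_, ?_⟩
  · rw [hq]; exact hDX
  · intro i j
    rw [Int.cast_mul, abs_mul, hsgn1, one_mul]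
    exact hc i j
  · intro i
    have hq0 : 0 < |(D : ℝ)| := abs_pos.2 hD0
    have hq1 : 1 ≤ |(D : ℝ)| := by
      have h3 : (1 : ℤ) ≤ |D| := Int.one_le_abs hdet
      exact_mod_cast h3
    have h1 : y i - (((D.sign * a i : ℤ) : ℝ) + ∑ j ∈ F, ((D.sign * c i j : ℤ) : ℝ) * y j) /
        ((D.natAbs : ℕ) : ℝ) = (D.sign : ℝ) * (D * y i - ((a i : ℝ) + ∑ j ∈ F, (c i j : ℝ) * y j)) /
          |(D : ℝ)| := by
      rw [hq, eq_div_iff hq0.ne', sub_mul, div_mul_cancel₀ _ hq0.ne', ← hsgn]
      push_cast
      simp_rw [mul_assoc, ← mul_sum]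
      ring
    rw [h1, abs_div, abs_mul, hsgn1, one_mul, abs_abs, div_le_iff₀ hq0]
    have h2 := hac i
    have h3 : 0 ≤ M * (M.factorial * X ^ M) * δ := (abs_nonneg _).trans h2
    nlinarith

end Pool.Agent.V11133.NR
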